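import Pool.Agent.P8H81.LP.Stm2

/-!
# Project LPB, package SPR: Hölder over the end points

The box has at most `9 N ^ 2` points and `(9 N ^ 2) ^ (1 / log N) ≤ 9 e ^ 2`, so that no weight is needed.
-/

set_option autoImplicit false

open MeasureTheory ProbabilityTheory Filter Finset

namespace Pool.Agent.P8H21.LPB

open Pool.Agent.P8H81.LP

lemma card_box (R : ℕ) : (box R).card = (2 * R + 1) ^ 2 := by
  unfold Pool.Agent.P8H81.LP.box
  rw [Fintype.card_piFinset]
  simp only [Int.card_Icc, Fin.prod_univ_two]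
  rw [show ((R : ℤ) + 1 - -(R : ℤ)).toNat = 2 * R + 1 by omega]
  ring

lemma QQ_nonneg (N : ℕ) (F : (Fin N → Fin 2 × Bool) → ℝ) (hF : ∀ σ, 0 ≤ F σ) (x : Fin 2 → ℤ) :
    0 ≤ QQ N F x := by
  unfold QQ
  exact mul_nonneg (by positivity) (Finset.sum_nonneg fun σ _ => hF σ)

lemma sum_QQ (N : ℕ) (F : (Fin N → Fin 2 × Bool) → ℝ) (hF : ∀ σ, 0 ≤ F σ) :
    ∑ x ∈ box N, QQ N F x ≤ EV N F := by
  unfold QQ EV
  rw [← Finset.mul_sum]
  apply mul_le_mul_of_nonneg_left _ (by positivity)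
  rw [Finset.sum_congr rfl (fun x _ => Finset.sum_filter _ _), Finset.sum_comm]
  apply Finset.sum_le_sum
  intro σ _
  by_cases h : pos σ N ∈ box N
  · rw [Finset.sum_eq_single_of_mem _ h (fun x _ hx => if_neg (Ne.symm hx)), if_pos rfl]
  · rw [Finset.sum_eq_zero]
    · exact hF σ
    · intro x hx
      apply if_neg
      intro he
      rw [he] at h
      exact h hx

lemma EV_sq (N : ℕ) (F : (Fin N → Fin 2 × Bool) → ℝ) :
    (EV N F) ^ 2 ≤ EV N (fun σ => (F σ) ^ 2) := by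
  unfold EV
  have h1 : (∑ σ : Fin N → Fin 2 × Bool, F σ) ^ 2 ≤
      (4 : ℝ) ^ N * ∑ σ : Fin N → Fin 2 × Bool, (F σ) ^ 2 := by
    have h2 := sq_sum_le_card_mul_sum_sq (s := (univ : Finset (Fin N → Fin 2 × Bool))) (f := F)
    have h3 : (((univ : Finset (Fin N → Fin 2 × Bool)).card : ℕ) : ℝ) = (4 : ℝ) ^ N := by
      rw [Finset.card_univ]
      simp only [Fintype.card_fun, Fintype.card_prod, Fintype.card_fin, Fintype.card_bool]
      norm_num
    rw [h3] at h2
    exact h2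
  have h4 : (0 : ℝ) < (4 : ℝ) ^ N := by positivity
  rw [mul_pow]
  calc ((4 : ℝ) ^ N)⁻¹ ^ 2 * (∑ σ : Fin N → Fin 2 × Bool, F σ) ^ 2 ≤
      ((4 : ℝ) ^ N)⁻¹ ^ 2 * ((4 : ℝ) ^ N * ∑ σ : Fin N → Fin 2 × Bool, (F σ) ^ 2) :=
        mul_le_mul_of_nonneg_left h1 (by positivity)
    _ = _ := by
      field_simp

/-- concavity: `∑ Q ^ θ ≤ (card) ^ (1 - θ) (∑ Q) ^ θ` -/
lemma holder {ι : Type} (s : Finset ι) (Q : ι → ℝ) (hQ : ∀ i, 0 ≤ Q i) (θ : ℝ) (h0 : 0 < θ)
    (h1 : θ < 1) : ∑ i ∈ s, (Q i) ^ θ ≤ (∑ i ∈ s, Q i) ^ θ * (s.card : ℝ) ^ (1 - θ) := by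
  have hpq : (1 / θ).HolderConjugate (1 / (1 - θ)) := by
    rw [Real.holderConjugate_iff]
    constructor
    · rw [one_lt_div h0]
      exact h1
    · rw [one_div, one_div, inv_inv, inv_inv]
      ring
  have h := Real.inner_le_Lp_mul_Lq s (fun i => (Q i) ^ θ) (fun _ => 1) hpq
  simp only [mul_one, abs_one, Real.one_rpow, Finset.sum_const, nsmul_eq_mul, one_div, inv_inv] at h
  refine h.trans (le_of_eq ?_)
  congr 2
  apply Finset.sum_congr rfl
  intro i _
  rw [abs_of_nonneg (Real.rpow_nonneg (hQ i) _), ← Real.rpow_mul (hQ i), mul_inv_cancel₀ h0.ne',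
    Real.rpow_one]

/-- package SPR. -/
theorem spr : S_SPR := by
  intro _
  refine ⟨9 * Real.exp 2, by positivity, ?_⟩
  intro N hN F hF
  have hN8 : (8 : ℝ) ≤ N := by exact_mod_cast hN
  have hN0 : (0 : ℝ) < N := by linarith
  have hlog : 1 < Real.log N := by
    rw [Real.lt_log_iff_exp_lt hN0]
    have := Real.exp_one_lt_d9
    linarith
  have hlog0 : 0 < Real.log N := by linarith
  have hinv : 1 / Real.log N < 1 := by
    rw [div_lt_one hlog0]
    exact hlog
  have hinv0 : 0 < 1 / Real.log N := by positivity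
  have h1 := holder (box N) (QQ N F) (fun x => QQ_nonneg N F hF x) (1 - 1 / Real.log N)
    (by linarith) (by linarith)
  refine h1.trans ?_
  have hsum0 : 0 ≤ ∑ x ∈ box N, QQ N F x := Finset.sum_nonneg fun x _ => QQ_nonneg N F hF x
  have hEV0 : 0 ≤ EV N F := hsum0.trans (sum_QQ N F hF)
  have h2 : (∑ x ∈ box N, QQ N F x) ^ (1 - 1 / Real.log N) ≤
      (EV N (fun σ => (F σ) ^ 2)) ^ ((1 - 1 / Real.log N) / 2) := by
    calc (∑ x ∈ box N, QQ N F x) ^ (1 - 1 / Real.log N) ≤ (EV N F) ^ (1 - 1 / Real.log N) :=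
          Real.rpow_le_rpow hsum0 (sum_QQ N F hF) (by linarith)
      _ = ((EV N F) ^ 2) ^ ((1 - 1 / Real.log N) / 2) := by
          rw [← Real.rpow_natCast, ← Real.rpow_mul hEV0]
          congr 1
          push_cast
          ring
      _ ≤ _ := Real.rpow_le_rpow (sq_nonneg _) (EV_sq N F) (by linarith)
  have h3 : ((box N).card : ℝ) ^ (1 - (1 - 1 / Real.log N)) ≤ 9 * Real.exp 2 := by
    rw [sub_sub_cancel]
    have h4 : ((box N).card : ℝ) ≤ 9 * (N : ℝ) ^ 2 := by
      rw [card_box]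
      push_cast
      nlinarith
    calc ((box N).card : ℝ) ^ (1 / Real.log N) ≤ (9 * (N : ℝ) ^ 2) ^ (1 / Real.log N) :=
          Real.rpow_le_rpow (Nat.cast_nonneg _) h4 hinv0.le
      _ = 9 ^ (1 / Real.log N) * ((N : ℝ) ^ 2) ^ (1 / Real.log N) :=
          Real.mul_rpow (by norm_num) (by positivity)
      _ ≤ 9 * Real.exp 2 := by
          apply mul_le_mul
          · calc (9 : ℝ) ^ (1 / Real.log N) ≤ 9 ^ (1 : ℝ) :=
                  Real.rpow_le_rpow_of_exponent_le (by norm_num) hinv.le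
              _ = 9 := Real.rpow_one _
          · rw [← Real.rpow_natCast, ← Real.rpow_mul hN0.le, Real.rpow_def_of_pos hN0]
            apply le_of_eq
            congr 1
            push_cast
            field_simp
          · positivity
          · norm_num
  calc (∑ i ∈ box N, QQ N F i) ^ (1 - 1 / Real.log N) *
        ((box N).card : ℝ) ^ (1 - (1 - 1 / Real.log N)) ≤
      (EV N (fun σ => (F σ) ^ 2)) ^ ((1 - 1 / Real.log N) / 2) * (9 * Real.exp 2) := by
        apply mul_le_mul h2 h3 (Real.rpow_nonneg (Nat.cast_nonneg _) _)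
        exact Real.rpow_nonneg ((sq_nonneg _).trans (EV_sq N F)) _
    _ = _ := by ring

end Pool.Agent.P8H21.LPB
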